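import Mathlib
import Pool.Agent.Lib.helper12.Bfly

set_option autoImplicit false

namespace Pool.Agent.Results.MP_469b0e_pr.QOne

variable {V : Type} (G : SimpleGraph V) [G.LocallyFinite]

/-- Mean-value property for simple random walk. -/
def Harmonic (f : V → ℝ) : Prop := ∀ x, f x = (∑ y ∈ G.neighborFinset x, f y) / G.degree x

open Classical in
/-- `hit G v n x` is the probability that simple random walk started at `x` visits `v` at some
time `≤ n` (first-step recursion). -/
noncomputable def hit (v : V) : ℕ → V → ℝ
  | 0, x => if x = v then 1 else 0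
  | n + 1, x => if x = v then 1 else (∑ y ∈ G.neighborFinset x, hit v n y) / G.degree x

/-- From every start `v`, the probability of returning to `v` (the supremum over `n` of the
probability of a return at a time in `[1, n+1]`) is less than `1`. -/
def Transient : Prop :=
  ∀ v, ∃ c < 1, ∀ n, (∑ y ∈ G.neighborFinset v, hit G v n y) / G.degree v ≤ c

open Pool.Agent.Lib.helper12 Bfly Walk in
theorem result : ∃ (V : Type) (G : SimpleGraph V) (_ : G.LocallyFinite), Infinite V ∧
    G.Connected ∧ (∀ v, G.degree v ≤ 4) ∧ Transient G ∧
    ∀ f : V → ℝ, Harmonic G f → ∀ x y, f x = f y := by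
  refine ⟨Bfly.V, H, inferInstance, .of_injective z fun _ _ h => congrArg Bfly.V.n h,
    (SimpleGraph.connected_iff_exists_forall_reachable _).2 ⟨z 0, fun x => ?_⟩,
    fun v => (deg v).2, fun v => ?_, fun f h x y => (const f h x).trans (const f h y).symm⟩
  · induction hn : x.n generalizing x with
    | zero => rw [eq_z hn]
    | succ n ih =>
      have a := U_dn x (by omega) false
      exact (ih _ (by have := a.1; omega)).trans (SimpleGraph.Adj.reachable (Or.inl a))
  · obtain ⟨c, c0, hc⟩ := lev v.n
    have p := mul_pos c0 (ψ_pos v.n)
    have d : ∀ (g : Bfly.V → ℝ) x, TR H (fun y => g y / (c * ψ v.n)) x = TR H g x / (c * ψ v.n) :=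
      fun g x => by simp only [TR, ← Finset.sum_div]; ring
    have h : ∀ n x, hit H v n x ≤ c * min (ψ x.n) (ψ v.n) / (c * ψ v.n) := fun n => by
      induction n with
      | zero =>
        intro x
        have := le_min (ψ_pos x.n).le (ψ_pos v.n).le
        rw [hit]; split_ifs with e
        · simp [e, p.ne']
        · positivity
      | succ n ih =>
        intro x
        rw [hit]; split_ifs with e
        · simp [e, p.ne']
        · refine (TR_mono ih x).trans ((d _ x).trans_le ?_)
          gcongr
          exact le_trans (le_add_of_nonneg_right (Set.indicator_nonneg (by simp) _)) (hc x)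
    refine ⟨(c * ψ v.n - 1) / (c * ψ v.n), (div_lt_one p).2 (by linarith), fun n =>
      (TR_mono (h n) v).trans ((d _ v).trans_le ?_)⟩
    gcongr
    simpa [le_sub_iff_add_le] using hc v

end Pool.Agent.Results.MP_469b0e_pr.QOne
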