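import Mathlib

set_option autoImplicit false

namespace Pool.Agent.Results.MP_469b0e_pr.QTwo

variable {V : Type} (G : SimpleGraph V) [G.LocallyFinite]

/-- Mean-value property for simple random walk. -/
def Harmonic (f : V → ℝ) : Prop := ∀ x, f x = (∑ y ∈ G.neighborFinset x, f y) / G.degree x

variable {G}

omit [G.LocallyFinite] in
lemma lip {g : V → ℝ} {c : ℝ} (h : ∀ x y, G.Adj x y → g x - g y ≤ c) {x y : V} (w : G.Walk x y) :
    g x - g y ≤ c * w.length := by
  induction w with
  | nil => simp
  | cons a w ih => have := h _ _ a; simp only [SimpleGraph.Walk.length_cons]; push_cast; linarith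

open Classical in
lemma dirichlet (hd : ∀ x, 0 < G.degree x) (S : Finset V) (A : Set V) : ∃ f : V → ℝ,
    (∀ x, 0 ≤ f x ∧ f x ≤ 1) ∧ (∀ x ∈ S, ∑ y ∈ G.neighborFinset x, (f x - f y) = 0) ∧
    ∀ x ∉ S, f x = if x ∈ A then 1 else 0 := by
  have hp : ∀ x, (0 : ℝ) < G.degree x := fun x => by exact_mod_cast hd x
  let F : (V → unitInterval) →o (V → unitInterval) := ⟨fun f x => if x ∈ S then
    ⟨(∑ y ∈ G.neighborFinset x, (f y : ℝ)) / G.degree x,
      div_nonneg (Finset.sum_nonneg fun y _ => (f y).2.1) (hp x).le,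
      (div_le_one (hp x)).2 (by
        simpa using Finset.sum_le_card_nsmul (G.neighborFinset x) _ (1 : ℝ) fun y _ => (f y).2.2)⟩
    else if x ∈ A then 1 else 0, fun f g h x => by
      dsimp only
      split_ifs
      · exact Subtype.mk_le_mk.2
          (div_le_div_of_nonneg_right (Finset.sum_le_sum fun y _ => h y) (hp x).le)
      all_goals rfl⟩
  have h := fun x => congrArg Subtype.val (congrFun F.map_lfp x)
  refine ⟨fun x => F.lfp x, fun x => (F.lfp x).2, fun x hx => ?_, fun x hx => ?_⟩
  · have := h x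
    generalize F.lfp = f at this
    simp only [F, OrderHom.coe_mk, if_pos hx] at this
    have p := hp x
    simp only [Finset.sum_sub_distrib, Finset.sum_const,
      SimpleGraph.card_neighborFinset_eq_degree, nsmul_eq_mul]
    rw [← this]; field_simp; simp
  · have := h x
    generalize F.lfp = f at this
    simp only [F, OrderHom.coe_mk, if_neg hx] at this
    beta_reduce
    rw [← this]; split_ifs <;> simp

open Classical in
noncomputable def Fl (G : SimpleGraph V) [G.LocallyFinite] (K : Finset V) (A : Set V)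
    (f : V → ℝ) : ℝ :=
  ∑ v ∈ K, ∑ u ∈ G.neighborFinset v, if u ∈ A ∧ v ∉ A then f u - f v else 0

lemma approx (hc : G.Connected) (hd : ∀ x, 0 < G.degree x) (K : Finset V) (A : Set V)
    (h1 : ∀ u ∈ A, ∀ v, G.Adj u v → v ∉ A → v ∈ K) (h2 : A.Infinite) (h3 : Aᶜ.Infinite) (o : V)
    (S0 : Finset V) : ∃ g : V → ℝ, (g o = 0 ∧ (∀ x y, G.Adj x y → g x - g y ≤ 1) ∧ Fl G K A g = 1) ∧
      ∀ x ∈ S0, ∑ y ∈ G.neighborFinset x, (g x - g y) = 0 := by
  classical
  obtain ⟨f, f1, f2, f3⟩ := dirichlet hd (S0 ∪ K) A
  set S := S0 ∪ K with hS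
  let T := S ∪ S.biUnion fun v => G.neighborFinset v
  have t1 : ∀ u ∈ S, ∀ v, G.Adj u v → v ∈ T := fun u h v a => by
    simp only [T, Finset.mem_union, Finset.mem_biUnion, SimpleGraph.mem_neighborFinset]
    exact Or.inr ⟨u, h, a⟩
  have t2 : S ⊆ T := Finset.subset_union_left
  let J : Set V → ℝ := fun U => ∑ v ∈ T, ∑ u ∈ T,
    if u ∈ U ∧ v ∉ U ∧ G.Adj u v then f u - f v else 0
  have j1 : ∀ U, J U = ∑ u ∈ T, if u ∈ U then ∑ v ∈ T, if G.Adj u v then f u - f v else 0 else 0 := by
    intro U
    have a : ∑ v ∈ T, ∑ u ∈ T, (if u ∈ U ∧ v ∈ U ∧ G.Adj u v then f u - f v else 0) = 0 := by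
      refine add_self_eq_zero.1 (eq_neg_iff_add_eq_zero.1 ?_)
      conv_lhs => rw [Finset.sum_comm]
      simp only [← Finset.sum_neg_distrib]
      refine Finset.sum_congr rfl fun u _ => Finset.sum_congr rfl fun v _ => ?_
      by_cases u ∈ U <;> by_cases v ∈ U <;> by_cases e : G.Adj u v <;> simp [*, G.adj_comm v]
    refine (add_zero (J U)).symm.trans ((congrArg (J U + ·) a.symm).trans ?_)
    simp only [J, ← Finset.sum_add_distrib]
    rw [Finset.sum_comm]
    refine Finset.sum_congr rfl fun u _ => ?_
    split_ifs with e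
    · exact Finset.sum_congr rfl fun v _ => by by_cases v ∈ U <;> simp [*]
    · simp [e]
  have j2 : ∀ U : Set V, (∀ u ∉ S, u ∈ U ↔ u ∈ A) → J U = J A := fun U h => by
    rw [j1, j1]
    refine Finset.sum_congr rfl fun u _ => ?_
    by_cases e : u ∈ S
    · rw [← Finset.sum_filter, show T.filter (G.Adj u) = G.neighborFinset u by
        ext v; simpa using t1 u e v, f2 u e]; simp
    · simp only [h u e]
  have j3 : J A = Fl G K A f := by
    symm
    refine (Finset.sum_congr rfl fun v hv => ?_).trans (Finset.sum_subset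
      (Finset.subset_union_right.trans t2) fun v _ hv => Finset.sum_eq_zero fun u _ =>
        if_neg fun h => hv (h1 u h.1 v h.2.2 h.2.1))
    refine (Finset.sum_congr rfl fun u hu => ?_).trans (Finset.sum_subset
      (fun u hu => t1 v (Finset.mem_union_right _ hv) u (by simpa using hu)) fun u _ hu =>
        if_neg fun h => hu (by simpa using h.2.2.symm))
    simp [(show G.Adj v u by simpa using hu).symm]
  have j4 : ∀ x y, G.Adj x y → f y < f x → f x - f y ≤ Fl G K A f := fun x y a b => by
    have c : x ∈ T ∧ y ∈ T := by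
      by_cases e : x ∈ S
      · exact ⟨t2 e, t1 x e y a⟩
      by_cases e' : y ∈ S
      · exact ⟨t1 y e' x a.symm, t2 e'⟩
      rw [f3 x e, f3 y e'] at b
      by_cases p : y ∈ A <;> by_cases q : x ∈ A <;> simp only [p, q, if_true, if_false] at b
      · simp at b
      · norm_num at b
      · exact absurd (Finset.mem_union_right _ (h1 x q y a p)) e'
      · simp at b
    have n : ∀ u v, 0 ≤ if u ∈ {u | f y < f u} ∧ v ∉ {u | f y < f u} ∧ G.Adj u v
        then f u - f v else 0 := fun u v => by
      split_ifs with h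
      · simp at h; linarith [h.1, h.2.1]
      · rfl
    rw [← j3, ← j2 {u | f y < f u} fun u h => by
      have := f1 x; have := f1 y
      simp only [Set.mem_ofPred_eq, f3 u h]
      split_ifs with e <;> simp [e] <;> linarith]
    refine le_trans ?_ (Finset.single_le_sum (fun v _ => Finset.sum_nonneg fun u _ => n u v) c.2)
    refine le_trans ?_ (Finset.single_le_sum (fun u _ => n u y) c.1)
    simp [a, b]
  have j5 : 0 < Fl G K A f := by
    by_contra h
    obtain ⟨p, p1, p2⟩ := h2.exists_notMem_finset S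
    obtain ⟨q, q1, q2⟩ := h3.exists_notMem_finset S
    obtain ⟨w⟩ := hc p q
    have := lip (g := f) (c := 0) (fun x y a => by
      by_contra b; linarith [j4 x y a (by linarith)]) w
    rw [f3 p p2, f3 q q2, if_pos p1, if_neg q1] at this
    norm_num at this
  refine ⟨fun x => (f x - f o) / Fl G K A f, ⟨by simp, fun x y a => ?_, ?_⟩, fun x hx => ?_⟩
  · rw [← sub_div, div_le_one j5]
    by_cases b : f y < f x
    exacts [by linarith [j4 x y a b], by linarith]
  · rw [← div_self j5.ne']
    suffices ∀ I, Fl G K A (fun x => (f x - f o) / I) = Fl G K A f / I from this _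
    intro I
    simp only [Fl, Finset.sum_div]
    refine Finset.sum_congr rfl fun v _ => Finset.sum_congr rfl fun u _ => ?_
    split_ifs <;> ring
  · simp only [← sub_div, sub_sub_sub_cancel_right, ← Finset.sum_div]
    rw [f2 x (Finset.mem_union_left _ hx), zero_div]

theorem result {V : Type} (G : SimpleGraph V) [G.LocallyFinite] (hc : G.Connected)
    (K : Finset V) (A B : G.ComponentCompl K) (hAB : A ≠ B) (hA : (A : Set V).Infinite)
    (hB : (B : Set V).Infinite) : ∃ f : V → ℝ, Harmonic G f ∧
      (∃ C : ℝ, ∀ x y, |f x - f y| ≤ C * G.dist x y) ∧ ∃ x y, f x ≠ f y := by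
  classical
  have := Set.infinite_univ_iff.1 (hA.mono (Set.subset_univ _))
  have hd : ∀ x, 0 < G.degree x := fun x => hc.preconnected.degree_pos_of_nontrivial x
  obtain ⟨o⟩ := hc.nonempty
  have L : ∀ g : V → ℝ, (∀ x y, G.Adj x y → g x - g y ≤ 1) → ∀ x y, |g x - g y| ≤ 1 * G.dist x y :=
    fun g h x y => by
      obtain ⟨w, e⟩ := hc.exists_walk_length_eq_dist x y
      have a := lip h w
      have b := lip h w.reverse
      rw [SimpleGraph.Walk.length_reverse] at b
      rw [← e, abs_le]; constructor <;> linarith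
  have C : IsCompact {g : V → ℝ | g o = 0 ∧ (∀ x y, G.Adj x y → g x - g y ≤ 1) ∧ Fl G K A g = 1} := by
    refine (isCompact_univ_pi fun x => isCompact_Icc (a := -(G.dist x o : ℝ))
      (b := G.dist x o)).of_isClosed_subset ?_ fun g h x _ => by simpa [h.1, abs_le] using L g h.2.1 x o
    refine (isClosed_eq (by fun_prop) continuous_const).inter (IsClosed.inter ?_
      (isClosed_eq ?_ continuous_const))
    · change IsClosed {g : V → ℝ | ∀ x y, G.Adj x y → g x - g y ≤ 1}
      simp only [Set.ofPred_forall]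
      exact isClosed_iInter fun x => isClosed_iInter fun y => isClosed_iInter fun _ =>
        isClosed_le (by fun_prop) continuous_const
    · refine continuous_finsetSum _ fun v _ => continuous_finsetSum _ fun u _ => ?_
      split_ifs <;> fun_prop
  obtain ⟨g, ⟨g1, g2, g3⟩, g4⟩ := C.inter_iInter_nonempty
    (fun x => {g | ∑ y ∈ G.neighborFinset x, (g x - g y) = 0})
    (fun x => isClosed_eq (by fun_prop) continuous_const) fun S => by
      obtain ⟨g, a, b⟩ := approx hc hd K A (fun u a v b c => by
        by_contra d; exact c (SimpleGraph.ComponentCompl.mem_of_adj u v a d b)) hA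
        (hB.mono fun x a b => Set.disjoint_left.1 (SimpleGraph.ComponentCompl.pairwise_disjoint hAB)
          b a) o S
      exact ⟨g, a, Set.mem_iInter₂.2 b⟩
  refine ⟨g, fun x => ?_, ⟨1, L g g2⟩, ?_⟩
  · have := Set.mem_iInter.1 g4 x
    have p : (0 : ℝ) < G.degree x := by exact_mod_cast hd x
    simp only [Set.mem_ofPred_eq, Finset.sum_sub_distrib, Finset.sum_const,
      SimpleGraph.card_neighborFinset_eq_degree, nsmul_eq_mul] at this
    field_simp; linarith
  · by_contra h
    push Not at h
    simp [Fl, h _ o] at g3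

end Pool.Agent.Results.MP_469b0e_pr.QTwo
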